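import Pool.Agent.Helper4.FRK.Sz

/-! FLAG ROWS OF K-LABELS (5): the deep zoom in flag rows over a literal carrier, in the vocabulary of Helper29/MX/St. -/

set_option autoImplicit false

namespace Pool.Agent.Helper4.FRK

open Finset Filter Topology Matrix Pool.Agent.Helper69.RK Pool.Agent.Helper31.EC Pool.Agent.Helper31.EC.Sp
open Pool.Agent.Helper40.EL Pool.Agent.Helper89.LX Pool.Agent.Helper3.LF Pool.Agent.Helper84.MT
open Pool.Agent.Helper7.GZ Pool.Agent.Helper89.RAT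
open Pool.Agent.Helper85.FRG (Car)
open Pool.Agent.Helper87.NSL (KnS cndR)
open Pool.Agent.Helper7.RD (RW volC volCO)
open Pool.Agent.Helper29.MX (Rsl KLb KOp KZ pfx volP Pt AllE Flg OptLam rover)

noncomputable section

variable {S : Sp} {M M' D : ℕ} {E : ℕ → ℕ} {ι : Type}

/-- the values of rows are a literal function of the resolution -/
theorem rQ_pt {Q : S.VV M} {R : Rsl S} (hR : KnS R Q.v) (Z : ZU S) {Λ : ℝ} (P : Rows Q Z.l M' D Λ Z.u) :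
    KnS (S := Z.sp) (rover Z.l Z.u Z.hu R) (rQ Z P).v := by
  filter_upwards [hR, P.fn] with k h1 h2 ω ω' a b z r
  obtain ⟨z1, z2⟩ := z
  have h3 : P.p k ω = P.p k ω' := h2 ω ω' a b z2 z1
  have h4 : Q.v k ((Z.l k).p.π ω) = Q.v k ((Z.l k).p.π ω') :=
    h1 _ _ ((Z.l k).p.supp ω a) ((Z.l k).p.supp ω' b) (((Z.l k).p.hZ ω ω' a b).1 z2) r
  have h5 : ∀ j, Rows.val Z P k ω j = Rows.val Z P k ω' j := fun j => by
    unfold Rows.val
    rw [h3, h4]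
  funext j
  unfold rQ
  simp only [h5]

section mk
variable {s : MSys S M E ι} {R : Rsl S} {c e : ℝ} {W : Rsl S} {Λ : ℝ} (hc : 0 < c) (he : 0 < e) (hce : c + e ≤ 1)
  (hl : KLb s R c (Lab.ofZ W)) (P : Rows s.Q (Lab.ofZ W) M' D Λ e) {κ : ℕ} (h1 : 1 ≤ κ) (hκ : ∀ i, (s.lf i).e ≤ κ)
  (hΛ : Λ + e ≤ c * (κ + 1))

/-- THE DEEP ZOOM in given rows over a literal K-label -/
def mkRW : RW s M' where
  Z := ⟨Lab.ofZ W, c, e, hc.le, he, hce⟩
  hc := hc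
  dm := fun i => hl.1 (some i)
  D := D
  Λ := Λ
  R := P
  X := rQ ⟨Lab.ofZ W, c, e, hc.le, he, hce⟩ P
  hX := rQ_isX ⟨Lab.ofZ W, c, e, hc.le, he, hce⟩ P
  κ := κ
  hκ1 := h1
  he := hκ
  hκ := hΛ

theorem mkRW_pt (hR : Pt s R) : Pt (mkRW hc he hce hl P h1 hκ hΛ).sys
    (rover (mkRW hc he hce hl P h1 hκ hΛ).Z.l (mkRW hc he hce hl P h1 hκ hΛ).Z.u (mkRW hc he hce hl P h1 hκ hΛ).Z.hu R) :=
  rQ_pt hR ⟨Lab.ofZ W, c, e, hc.le, he, hce⟩ P

end mk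

/-- the exponents of the optimal flag -/
abbrev lamK (s : MSys S M E ι) (R : Rsl S) (c : ℝ) (j : Fin M) : ℝ :=
  1 - (volP s R c (Nat.succ_le_of_lt j.2) - volP s R c j.2.le)

open Classical in
/-- the volumes of the prefixes -/
def vP (s : MSys S M E ι) (R : Rsl S) (c : ℝ) (j : ℕ) : ℝ := if h : j ≤ M then volP s R c h else 0

theorem vP_eq (s : MSys S M E ι) (R : Rsl S) (c : ℝ) {j : ℕ} (h : j ≤ M) : vP s R c j = volP s R c h := dif_pos h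

theorem thv_vP (s : MSys S M E ι) (R : Rsl S) (c : ℝ) (j : Fin M) : thv (vP s R c) j.val = lamK s R c j := by
  unfold thv lamK
  rw [vP_eq s R c (Nat.succ_le_of_lt j.2), vP_eq s R c j.2.le]

section
variable [Finite ι] {g : ℕ} {s : MSys S M (lin g) ι} {R : Rsl S}

/-- **THE DEEP ZOOM IN OPTIMAL FLAG ROWS** over a literal carrier of the window `c`, finer than a given literal K-label:
`D` is the degree of the rows, `Λ` the bound of their coefficients, `e` the unit -/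
theorem exists_rw (hR : Pt s R) (hD : 1 ≤ D) (hst : ∀ j, j < M → ∀ r, STm D j (lin g) (Fin r)) {c e : ℝ} (hc : 0 < c)
    (he : 0 < e) (hce : c + e ≤ 1)
    (hrig : AllE (fun _ t R' => ∀ (j : ℕ) (hj : j ≤ M), volP t R' c hj = volP s R c hj) S s R)
    (hd : ∀ (j : ℕ) (hj : j ≤ M), volC (KZ R) (cndR s R c) (pfx s.Q hj) D ≤ volP s R c hj)
    (hdX : AllE (fun _ t R' => ∀ (j : ℕ) (hj : j ≤ M), volC (KZ R') (cndR t R' c) (pfx t.Q hj) D ≤ volP t R' c hj) S s R)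
    {Λ : ℝ} (hΛ : 0 ≤ Λ) (hu : ∀ x : ∀ k, FD (S.F k) (Mon M D), KOp s R D c x → GrB s.Q x e)
    (hz : ∀ x : ∀ k, FD (S.F k) (Mon M D), KOp s R D c x → Sz x Λ) {κ : ℕ} (h1 : 1 ≤ κ) (hκ : ∀ i, (s.lf i).e ≤ κ)
    (hΛκ : Λ + e ≤ c * (κ + 1)) {W₀ : Rsl S} (hW₀ : KLb s R c (Lab.ofZ W₀)) :
    ∃ (z : RW s M) (W : Rsl S), (∀ k, W k ≤ W₀ k) ∧ z.Z.l = Lab.ofZ W ∧ z.Z.c = c ∧ z.Z.u = e ∧ z.κ = κ ∧ z.D = D ∧
      z.Λ = Λ ∧ KLb s R c z.Z.l ∧ Car s R (fun k => fc (R k)) c z.Z.l ∧ Flg z (lamK s R c) ∧ OptLam z R (lamK s R c) ∧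
      Pt z.sys (rover z.Z.l z.Z.u z.Z.hu R) := by
  obtain ⟨W, hW, hWc⟩ := exists_car_le hR hW₀
  have hS : Vpf D c (vP s R c) s R := vpf_of (fun j hj => (vP_eq s R c hj).symm) hd
  have hX : AllE (fun _ t R' => Vpf D c (vP s R c) t R') S s R := fun T p B hB =>
    vpf_of (s := s.im p B hB) (R := R) (fun j hj => (hrig T p B hB j hj).trans (vP_eq s R c hj).symm) (hdX T p B hB)
  obtain ⟨W', P, hW', hl, hcar, hF⟩ := exists_flr hR hD hst hc.le (by linarith) hS hX hΛ hu hz hWc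
  have e1 : (fun j : Fin M => thv (vP s R c) j.val) = lamK s R c := funext fun j => thv_vP s R c j
  rw [e1] at hF
  exact ⟨mkRW hc he hce hl P h1 hκ hΛκ, W', fun k => (hW' k).trans (hW k), rfl, rfl, rfl, rfl, rfl, rfl, hl, hcar,
    ⟨hF.tri, hF.ex⟩, Or.inl fun _ => rfl, mkRW_pt hc he hce hl P h1 hκ hΛκ hR⟩

end

end

end Pool.Agent.Helper4.FRK
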