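import Pool.Agent.Helper4.FRK.Top
import Pool.Agent.Helper4.FFR.Trn
import Pool.Agent.Helper25.DX.Win

/-! FLAG ROWS OF K-LABELS (7): the optimal flag of the truncation `s.trn a` at the window `c / a` as flag rows of `s`
(second alternative of `OptLam`): exponents `a * λ_j`, tame at the distance `2 ^ (- a n)`. -/

set_option autoImplicit false

namespace Pool.Agent.Helper4.FRK

open Finset Filter Topology Matrix Pool.Agent.Helper69.RK Pool.Agent.Helper31.EC Pool.Agent.Helper31.EC.Sp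
open Pool.Agent.Helper40.EL Pool.Agent.Helper89.LX Pool.Agent.Helper3.LF Pool.Agent.Helper84.MT
open Pool.Agent.Helper7.GZ Pool.Agent.Helper89.RAT
open Pool.Agent.Helper85.FRG (Car)
open Pool.Agent.Helper87.NSL (KnS cndR)
open Pool.Agent.Helper7.RD (RW volC volCO)
open Pool.Agent.Helper89.RAD (cnA dp cnA_dp)
open Pool.Agent.Helper52.SL (untL tnL nul_trn cellv_chg)
open Pool.Agent.Helper25.DX (wd cs ct cs_wd ct_wd)
open Pool.Agent.Helper4.FFR (sub_chg Rows.untrn)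
open Pool.Agent.Helper29.MX (Rsl KLb KOp KZ pfx volP Pt AllE Flg OptLam Tam rover)

noncomputable section

variable {S : Sp} {M M' D : ℕ} {E : ℕ → ℕ} {ι κ : Type} {Q : S.VV M}

/-- the trivial gradient bound -/
theorem grb_zero {A : κ → Part S} {x : ∀ k, FD (S.F k) (Mon M D)} (hx : (gaq Q D).Adf A x) : GrB Q x 0 := by
  obtain ⟨K, hK, hT⟩ := form_typ hx.fm
  have hc : (0 : ℝ) ≤ (M : ℝ) * nn M D * Cm M D ^ 2 := by
    have h1 := nn_one M D
    have h2 : (0 : ℝ) ≤ nn M D := by linarith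
    positivity
  refine GrB.of_gam hx.fm zero_le_one ⟨fun k => (M : ℝ) * nn M D * Cm M D ^ 2 * K k, (S.Sub_const hc).mul hK, ?_⟩
  refine Typ.mono (S := (lb x).sp) hT ?_
  filter_upwards [hx 1 one_pos] with k hk
  intro (ω : (x k).l.T.Ω) hω h
  have hA := (hk.2.1 ω hω).1.pdM
  have hr := S.dl_pos 1 k
  have h1 := gam_le ((x k).g ω) hA (S.dl 1 k) hr (Q.v k ((x k).l.p.π ω))
  have h2 : (S.dl 0 k / S.dl 1 k) ^ 2 = (S.dl 1 k ^ 2)⁻¹ := by
    rw [S.dl_zero, div_pow, one_pow, one_div]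
  show gam (S.dl 1 k) ((x k).g ω) (Q.v k ((x k).l.p.π ω)) ≤ _
  rw [h2, ← div_eq_mul_inv, le_div_iff₀ (by positivity), mul_comm]
  exact h1.trans (mul_le_mul_of_nonneg_left h hc)

/-! ### labels of the truncation -/

theorem h_trn {F : FSp} (r : ℝ) (h0 : 0 < r) (A B : Setoid F.Ω) :
    h (fc (F := F.chg ⊤ r h0) A) (fc (F := F.chg ⊤ r h0) B) = h (fc A) (fc B) := by
  rw [h_fc, h_fc]
  show F.e A (B ⊓ (⊤ ⊓ F.Z)) = F.e A (B ⊓ F.Z)
  rw [top_inf_eq]

/-- literal K-labels of the truncation -/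
theorem klb_trn {s : MSys S M E ι} {R : Rsl S} {a : ℝ} {h0 : 0 < a} {h1 : a ≤ 1} {b : ℝ} {W : Rsl S} :
    KLb (S := S.chg S.tr a h0) (s.trn a h0 h1) R b (Lab.ofZ (S := S.chg S.tr a h0) W) ↔
      KLb s R (a * b) (Lab.ofZ W) := by
  unfold KLb
  have e3 : cndR (S := S.chg S.tr a h0) (s.trn a h0 h1) R b = ct a h0 (wd s R (a * b)) :=
    (cnA_dp (s.trn a h0 h1) R b).symm.trans (ct_wd s R h0 h1 b).symm
  have e4 : cndR s R (a * b) = cs (wd s R (a * b)) := (cnA_dp s R (a * b)).symm.trans (cs_wd s R (a * b)).symm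
  rw [e3, e4, Lab.ofZ_DMf, Lab.ofZ_DMf]
  have e1 : ∀ (i : Option ι) (k : ℕ), h (fc (F := (S.chg S.tr a h0).F k) (W k)) (ct a h0 (wd s R (a * b)) i k) =
      h (fc (W k)) (cs (wd s R (a * b)) i k) := fun i k => h_trn a h0 (W k) (wd s R (a * b) i k)
  refine and_congr (forall_congr' fun i => ?_) (eventually_congr (Eventually.of_forall fun k => ?_))
  · show Nul (S.chg S.tr a h0) (fun k => h (fc (F := (S.chg S.tr a h0).F k) (W k)) (ct a h0 (wd s R (a * b)) i k)) ↔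
      Nul S (fun k => h (fc (W k)) (cs (wd s R (a * b)) i k))
    rw [nul_trn]
    have e2 : (fun k => h (fc (F := (S.chg S.tr a h0).F k) (W k)) (ct a h0 (wd s R (a * b)) i k)) =
        fun k => h (fc (W k)) (cs (wd s R (a * b)) i k) := funext fun k => e1 i k
    rw [e2]
  · show ((Lab.ofZ (S := S.chg S.tr a h0) W) k).leak (fc (F := (S.chg S.tr a h0).F k) (R k)) = 0 ↔
      ((Lab.ofZ W) k).leak (fc (R k)) = 0
    rw [Lab.ofZ_leak (S := S.chg S.tr a h0) W (fun k => fc (F := (S.chg S.tr a h0).F k) (R k)) k,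
      Lab.ofZ_leak W (fun k => fc (R k)) k]
    exact (iff_of_eq (congrArg (· = 0) (h_trn a h0 (W k) (R k))))

/-! ### rows -/

/-- the label of the truncation as a label of the system -/
def Rows.unz {a : ℝ} {h0 : 0 < a} {W : Rsl S} {Λ u : ℝ}
    (P : Rows Q (untL (Lab.ofZ (S := S.chg S.tr a h0) W)) M' D Λ u) : Rows Q (Lab.ofZ W) M' D Λ u where
  p := P.p
  deg := P.deg
  fn := by
    filter_upwards [P.fn] with k hk ω ω' a b c d
    exact hk ω ω' a b ⟨trivial, c⟩ d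
  cf := P.cf
  bd := P.bd
  lp := P.lp

/-- rows with a smaller unit -/
def Rows.dn {l : Lab S} {Λ u u' : ℝ} (P : Rows Q l M' D Λ u) (h : u' ≤ u) : Rows Q l M' D Λ u' where
  p := P.p
  deg := P.deg
  fn := P.fn
  cf := P.cf
  bd := P.bd
  lp := fun L hL => by
    obtain ⟨K, hK, hT⟩ := P.lp L hL
    refine ⟨K, hK, Typ.mono (S := l.sp) hT ?_⟩
    filter_upwards [hK.1] with k hk ω _ h2 y hy j
    exact (h2 y hy j).trans (mul_le_mul_of_nonneg_left (S.dl_anti h k) hk)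

/-- flags of the truncation -/
theorem FlR.low {a : ℝ} {h0 : 0 < a} (h1 : a ≤ 1) {W : Rsl S} {Λ u : ℝ}
    {P : Rows (Q.chg S.tr a h0) (Lab.ofZ (S := S.chg S.tr a h0) W) M D Λ u} {lam : Fin M → ℝ}
    (hP : FlR (S := S.chg S.tr a h0) P lam) {u' : ℝ} (hu : u' ≤ 1 - a + a * u) :
    FlR (Rows.dn (Rows.unz (Rows.untrn h1 P)) hu) fun j => a * lam j where
  tri := hP.tri
  ex := fun e he => by
    refine Typ.mono (S := (Lab.ofZ W).sp) (hP.ex (e / a) (div_pos he h0)) (Eventually.of_forall fun k => ?_)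
    intro (ω : (S.F k).Ω) _ h j
    have h2 := h j
    have e1 : (lam j - e / a) * ((S.chg S.tr a h0).F k).n = (a * lam j - e) * (S.F k).n := by
      show (lam j - e / a) * (a * (S.F k).n) = _
      field_simp
    have e2 : (lam j + e / a) * ((S.chg S.tr a h0).F k).n = (a * lam j + e) * (S.F k).n := by
      show (lam j + e / a) * (a * (S.F k).n) = _
      field_simp
    rw [e1, e2] at h2
    exact h2

/-- the rows of the truncation are tame at the distance `2 ^ (- a n)` -/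
theorem rows_tam {a : ℝ} {h0 : 0 < a} {W : Rsl S} {Λ u : ℝ} (hu : 0 ≤ u)
    (P : Rows (Q.chg S.tr a h0) (Lab.ofZ (S := S.chg S.tr a h0) W) M' D Λ u) (L : ℕ → ℝ) (hL : S.Sub L) :
    ∃ K : ℕ → ℝ, S.Sub K ∧ Typ (S := (Lab.ofZ W).sp) (fun k (ω : (S.F k).Ω) => ∀ y : Fin M → ℝ,
      (∀ i, |y i - Q.v k ω i| ≤ L k * S.dl a k) → ∀ j, |MvPolynomial.eval y (P.p k ω j)| ≤ K k) := by
  obtain ⟨K1, hK1, hT1⟩ := P.bd
  obtain ⟨K2, hK2, hT2⟩ := P.lp L (chg_sub S.tr a h0 hL)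
  refine ⟨fun k => K1 k + K2 k, (sub_chg hK1).add (sub_chg hK2), ?_⟩
  have hT := Typ.and (S := (Lab.ofZ (S := S.chg S.tr a h0) W).sp) hT1 hT2
  refine Typ.mono (S := (Lab.ofZ W).sp) hT ?_
  filter_upwards [hK2.1] with k hk
  intro (ω : (S.F k).Ω) _ h y hy j
  have h2 := h.1 j
  have h3 := h.2 y (fun i => by
    rw [chg_dl, mul_one]
    exact hy i) j
  have h4 : (S.chg S.tr a h0).dl u k ≤ 1 := by
    rw [← (S.chg S.tr a h0).dl_zero k]
    exact (S.chg S.tr a h0).dl_anti hu k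
  have h5 : K2 k * (S.chg S.tr a h0).dl u k ≤ K2 k * 1 := mul_le_mul_of_nonneg_left h4 hk
  have h6 := abs_add_le (MvPolynomial.eval y (P.p k ω j) -
    MvPolynomial.eval ((Q.chg S.tr a h0).v k ω) (P.p k ω j)) (MvPolynomial.eval ((Q.chg S.tr a h0).v k ω) (P.p k ω j))
  rw [sub_add_cancel] at h6
  have h7 : |MvPolynomial.eval ((Q.chg S.tr a h0).v k ω) (P.p k ω j)| ≤ K1 k := h2
  have h8 : |MvPolynomial.eval y (P.p k ω j) - MvPolynomial.eval ((Q.chg S.tr a h0).v k ω) (P.p k ω j)| ≤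
    K2 k * (S.chg S.tr a h0).dl u k := h3
  linarith

section
variable [Finite ι] {g : ℕ} {s : MSys S M (lin g) ι} {R : Rsl S}

/-- **THE DEEP ZOOM IN FLAG ROWS OF THE TRUNCATION** at a level `a > c` over a literal label which carries the optimal
forms of the truncation at the window `c / a`, finer than a given literal K-label: exponents `a * λ_j`, tame at the
distance `2 ^ (- a n)`; unit `e ≤ 1 - a` -/
theorem exists_rwa (hR : Pt s R) (hD : 1 ≤ D) (hst : ∀ j, j < M → ∀ r, STm D j (lin g) (Fin r)) {a c e : ℝ}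
    (ha0 : 0 < a) (ha1 : a ≤ 1) (hc : 0 < c) (hca : c < a) (he : 0 < e) (hae : a + e ≤ 1)
    (hrig : AllE (fun _ t R' => ∀ (j : ℕ) (hj : j ≤ M), volP t R' (c / a) hj = volP (s.trn a ha0 ha1) R (c / a) hj)
      (S.chg S.tr a ha0) (s.trn a ha0 ha1) R)
    (hd : ∀ (j : ℕ) (hj : j ≤ M), volC (KZ (S := S.chg S.tr a ha0) R) (cndR (s.trn a ha0 ha1) R (c / a))
      (pfx (s.trn a ha0 ha1).Q hj) D ≤ volP (s.trn a ha0 ha1) R (c / a) hj)
    (hdX : AllE (fun _ t R' => ∀ (j : ℕ) (hj : j ≤ M),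
      volC (KZ R') (cndR t R' (c / a)) (pfx t.Q hj) D ≤ volP t R' (c / a) hj) (S.chg S.tr a ha0) (s.trn a ha0 ha1) R)
    {Λ : ℝ} (hΛ : 0 ≤ Λ)
    (hz : ∀ x : ∀ k, FD ((S.chg S.tr a ha0).F k) (Mon M D), KOp (s.trn a ha0 ha1) R D (c / a) x → Sz x Λ) {κ : ℕ}
    (h1 : 1 ≤ κ) (hκ : ∀ i, (s.lf i).e ≤ κ) (hΛκ : a * Λ + e ≤ c * (κ + 1)) {W₀ : Rsl S}
    (hW₀ : KLb s R c (Lab.ofZ W₀)) :
    ∃ (z : RW s M) (W : Rsl S), (∀ k, W k ≤ W₀ k) ∧ z.Z.l = Lab.ofZ W ∧ z.Z.c = c ∧ z.Z.u = e ∧ z.κ = κ ∧ z.D = D ∧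
      z.Λ = a * Λ ∧ KLb s R c z.Z.l ∧
      Car (S := S.chg S.tr a ha0) (s.trn a ha0 ha1) R (fun k => fc (F := (S.chg S.tr a ha0).F k) (R k)) (c / a)
        (Lab.ofZ (S := S.chg S.tr a ha0) W) ∧
      Flg z (fun j => a * lamK (s.trn a ha0 ha1) R (c / a) j) ∧ Tam z a ∧
      OptLam z R (fun j => a * lamK (s.trn a ha0 ha1) R (c / a) j) ∧ Pt z.sys (rover z.Z.l z.Z.u z.Z.hu R) := by
  have hac : a * (c / a) = c := mul_div_cancel₀ c ha0.ne'
  have hb0 : 0 ≤ c / a := (div_pos hc ha0).le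
  have hb1 : c / a < 1 := (div_lt_one ha0).2 hca
  have hRt : KnS (S := S.chg S.tr a ha0) R (s.trn a ha0 ha1).Q.v := by
    filter_upwards [hR] with k h ω ω' p q z r
    exact h ω ω' p q z.2 r
  have hW1 : KLb (S := S.chg S.tr a ha0) (s.trn a ha0 ha1) R (c / a) (Lab.ofZ (S := S.chg S.tr a ha0) W₀) := by
    rw [klb_trn, hac]
    exact hW₀
  obtain ⟨W, hW, hWc⟩ := exists_car_le (S := S.chg S.tr a ha0) hRt hW1
  have hS : Vpf D (c / a) (vP (s.trn a ha0 ha1) R (c / a)) (s.trn a ha0 ha1) R :=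
    vpf_of (fun j hj => (vP_eq (s.trn a ha0 ha1) R (c / a) hj).symm) hd
  have hX : AllE (fun _ t R' => Vpf D (c / a) (vP (s.trn a ha0 ha1) R (c / a)) t R') (S.chg S.tr a ha0)
      (s.trn a ha0 ha1) R := fun T p B hB =>
    vpf_of (s := (s.trn a ha0 ha1).im p B hB) (R := R)
      (fun j hj => (hrig T p B hB j hj).trans (vP_eq (s.trn a ha0 ha1) R (c / a) hj).symm) (hdX T p B hB)
  obtain ⟨W', P, hW', hl, hcar, hF⟩ := exists_flr (S := S.chg S.tr a ha0) hRt hD hst hb0 hb1 hS hX hΛ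
    (u := 0) (fun x hx => grb_zero hx.1.1) hz hWc
  have e1 : (fun j : Fin M => thv (vP (s.trn a ha0 ha1) R (c / a)) j.val) = lamK (s.trn a ha0 ha1) R (c / a) :=
    funext fun j => thv_vP (s.trn a ha0 ha1) R (c / a) j
  rw [e1] at hF
  have hl' : KLb s R c (Lab.ofZ W') := by
    rw [klb_trn, hac] at hl
    exact hl
  have hu' : e ≤ 1 - a + a * 0 := by linarith
  have hF' := hF.low ha1 hu'
  have hce : c + e ≤ 1 := by linarith
  have hT : Tam (mkRW hc he hce hl' (Rows.dn (Rows.unz (Rows.untrn ha1 P)) hu') h1 hκ hΛκ) a :=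
    rows_tam (u := 0) le_rfl P
  exact ⟨mkRW hc he hce hl' (Rows.dn (Rows.unz (Rows.untrn ha1 P)) hu') h1 hκ hΛκ, W',
    fun k => (hW' k).trans (hW k), rfl, rfl, rfl, rfl, rfl, rfl, hl', hcar, ⟨hF'.tri, hF'.ex⟩, hT,
    Or.inr ⟨a, ha0, ha1, hca.le, hae, hT, fun _ => rfl⟩, mkRW_pt hc he hce hl' _ h1 hκ hΛκ hR⟩

end

end

end Pool.Agent.Helper4.FRK
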