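import Pool.Agent.Helper4.FRK.Mk

/-! FLAG ROWS OF K-LABELS (6): the exponents of the flag are at most the top exponent. -/

set_option autoImplicit false

namespace Pool.Agent.Helper4.FRK

open Finset Filter Topology Matrix Pool.Agent.Helper69.RK Pool.Agent.Helper31.EC Pool.Agent.Helper31.EC.Sp
open Pool.Agent.Helper40.EL Pool.Agent.Helper89.LX Pool.Agent.Helper3.LF Pool.Agent.Helper84.MT
open Pool.Agent.Helper7.GZ Pool.Agent.Helper89.RAT
open Pool.Agent.Helper85.FRG (Car)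
open Pool.Agent.Helper87.NSL (KnS cndR)
open Pool.Agent.Helper29.MX (Rsl KLb KOp KZ pfx volP Pt AllE)

noncomputable section

variable {S : Sp} {M M' D : ℕ} {E : ℕ → ℕ} {ι : Type}

/-! ### the top exponent and the exponents of the rows -/

/-- a bound of the exponent of a direction by the gradient bound, deterministic -/
theorem lz_grb {Q : S.VV M} {A : Matrix (Mon M D) (Mon M D) ℝ} (z : Fin M) (k : ℕ) (ω : (S.F k).Ω) {u ε K : ℝ}
    (hA : ∀ v, 0 ≤ qf A v) (hK0 : 0 ≤ K) (hK : Real.logb 2 (K + 2) ≤ ε * (S.F k).n)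
    (h : ∀ e : Fin M → ℝ, e ⬝ᵥ ((1 + Jq (S.dl 1 k) A (Q.v k ω)) *ᵥ e) ≤ K * (S.dl u k / S.dl 1 k) ^ 2 * (e ⬝ᵥ e)) :
    xz Q z k ω A ≤ ε / 2 + (1 - u) := by
  have hn := (S.F k).pos
  have hJ1 := one_le_Jz Q z k ω hA
  have h6 := h (Pi.single z 1)
  have e1 : (Pi.single z 1 : Fin M → ℝ) ⬝ᵥ ((1 + Jq (S.dl 1 k) A (Q.v k ω)) *ᵥ Pi.single z 1) = Jz Q z k ω A := by
    rw [Matrix.mulVec_single_one, single_one_dotProduct, Matrix.col_apply, Matrix.add_apply, Matrix.one_apply_eq]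
    rfl
  have e2 : (Pi.single z 1 : Fin M → ℝ) ⬝ᵥ Pi.single z 1 = 1 := by
    rw [single_one_dotProduct, Pi.single_eq_same]
  rw [e1, e2, mul_one] at h6
  have h9 : (S.dl u k / S.dl 1 k) ^ 2 = 2 ^ (2 * (1 - u) * (S.F k).n) := by
    unfold Sp.dl
    rw [← Real.rpow_sub (by norm_num), ← Real.rpow_natCast, ← Real.rpow_mul (by norm_num)]
    congr 1
    push_cast
    ring
  have h11 : Jz Q z k ω A ≤ (K + 2) * 2 ^ (2 * (1 - u) * (S.F k).n) := by
    rw [← h9]
    exact h6.trans (mul_le_mul_of_nonneg_right (by linarith) (by positivity))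
  have h12 := Real.logb_le_logb_of_le (b := 2) (by norm_num) (by linarith) h11
  rw [Real.logb_mul (by linarith) (by positivity), Real.logb_rpow (by norm_num) (by norm_num)] at h12
  have h13 : xz Q z k ω A = Real.logb 2 (Jz Q z k ω A) / (2 * (S.F k).n) := rfl
  rw [h13, div_le_iff₀ (by linarith)]
  linarith

section
variable [Finite ι] {g : ℕ} {s : MSys S M (lin g) ι} {R : Rsl S}

/-- the exponents of the flag are at most the top exponent -/
theorem thv_le (hR : KnS R s.Q.v) (hD : 1 ≤ D) (hst : ∀ j, j < M → ∀ r, STm D j (lin g) (Fin r)) {c : ℝ}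
    (h0 : 0 ≤ c) (h1 : c < 1) {v : ℕ → ℝ} (hS : Vpf D c v s R) (hX : AllE (fun _ t R' => Vpf D c v t R') S s R)
    {u : ℝ} (hu : ∀ x : ∀ k, FD (S.F k) (Mon M D), KOp s R D c x → GrB s.Q x u) (j : Fin M) :
    thv v j.val ≤ 1 - u := by
  obtain ⟨x, hx⟩ := (gaq s.Q D).exists_optfK (KZ R) (cndR s R c)
  have hx' : KO s (Pool.Agent.Helper48.ROK.nrm R s.Q) D c x := by
    refine (Pool.Agent.Helper48.ROK.optfK_res (Pool.Agent.Helper48.ROK.nrm_fc hR)).2 ?_
    rw [Pool.Agent.Helper89.RAD.cnA_dp]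
    exact hx
  have hv := vcn_nrm hR hS hX
  have hu1 := grb_prt (σ := Fin.castLE (Nat.succ_le_of_lt j.isLt)) (hσ := Fin.castLE_injective _) hx.1.1 (hu x hx)
  obtain ⟨K, hK, hT⟩ := hu1
  apply le_of_forall_pos_le_add
  intro ε hε
  have h2 := typ_lz (Pool.Agent.Helper48.ROK.nrm_lit R s.Q) hD hst h0 h1 hv hx' j (ε / 2) (by linarith)
  have h4 : Typ (S := (lb x).sp) (fun k (ω : (x k).l.T.Ω) => thv v j.val ≤ 1 - u + ε) := by
    refine Typ.mono (S := (lb x).sp) (h2.and hT) ?_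
    filter_upwards [hK.2.eventually (gt_mem_nhds (show (0 : ℝ) < ε by linarith)), hK.1,
      (pre_adf hx.1.1 (Nat.succ_le_of_lt j.isLt)) 1 one_pos] with k a b hk
    intro (ω : (x k).l.T.Ω) hω h
    have hn := (S.F k).pos
    have h5 := (abs_le.mp h.1).1
    have hB : Cpd ((gaq (pq (Nat.succ_le_of_lt j.isLt) s.Q) D).cp k) ((pre (Nat.succ_le_of_lt j.isLt) x k).g ω) :=
      (hk.2.1 ω hω).1
    have h14 : lz s.Q x j k ω ≤ ε / 2 + (1 - u) :=
      lz_grb (Q := pq (Nat.succ_le_of_lt j.isLt) s.Q) (Fin.last j.val) k ((x k).l.p.π ω) (K := K k)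
        (fun v => hB.psd.2 v) b (by
          rw [div_lt_iff₀ hn] at a
          exact a.le) h.2
    show thv v j.val ≤ 1 - u + ε
    linarith
  obtain ⟨k, ω, -, h5⟩ := (Pool.Agent.Helper36.AM.typ_ex (S := (lb x).sp) h4).exists
  exact h5

end

end

end Pool.Agent.Helper4.FRK
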