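import Pool.Agent.Helper4.FRK.Typ
import Pool.Agent.Helper85.FRG.Lit
import Pool.Agent.Helper48.ROK.Nrm
import Pool.Agent.Helper29.MX.Bas

/-! FLAG ROWS OF K-LABELS (3): literal carriers finer than a given literal K-label; flag rows over a literal carrier,
for resolutions which know the point (`Pt`), with the volumes of the prefixes constant on all events. -/

set_option autoImplicit false

namespace Pool.Agent.Helper4.FRK

open Finset Filter Topology Matrix Pool.Agent.Helper69.RK Pool.Agent.Helper31.EC Pool.Agent.Helper31.EC.Sp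
open Pool.Agent.Helper40.EL Pool.Agent.Helper89.LX Pool.Agent.Helper3.LF Pool.Agent.Helper84.MT
open Pool.Agent.Helper7.GZ Pool.Agent.Helper89.RAT
open Pool.Agent.Helper89.RAK (Lit KC addW_kz)
open Pool.Agent.Helper89.RAD (cnA dp DMD cnA_dp)
open Pool.Agent.Helper18.PRM (vcrd scrd)
open Pool.Agent.Helper85.FRG (FF exists_ff Car exists_car lit_bd scw_cndR Rf)
open Pool.Agent.Helper85.FRM (nul_ev)
open Pool.Agent.Helper87.NSL (KnS cndR)
open Pool.Agent.Helper52.GF (scw)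
open Pool.Agent.Helper33.LIT (Sec)
open Pool.Agent.Helper48.ROK (nrm nrm_lit nrm_fc kns_im optfK_res ev_res)
open Pool.Agent.Helper7.RD (volC volCO volC_eq volCO_le)
open Pool.Agent.Helper29.MX (Rsl KLb KOp KZ pfx volP Pt AllE)

noncomputable section

variable {S : Sp} {M D : ℕ} {E : ℕ → ℕ} {ι : Type}

/-! ### forms over finer partitions -/

section res
variable {α : Type} [Fintype α] [DecidableEq α] {Z Z' : Rsl S}

/-- a form over a finer partition -/
def rsF (h : ∀ k, Z' k ≤ Z k) (y : ∀ k, FF (Lab.ofZ Z k) α) : ∀ k, FF (Lab.ofZ Z' k) α := fun k =>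
  ⟨(y k).g, (y k).g', fun ω ω' a b c d => (y k).meas ω ω' a b (h k c) d⟩

theorem rs_adf {κ : Type} [Finite κ] {Φ : Gau S α} {A : κ → Part S} (h : ∀ k, Z' k ≤ Z k)
    {y : ∀ k, FF (Lab.ofZ Z k) α} (hy : Φ.Adf A fun k => (y k).fd) (hd : (Lab.ofZ Z').DMf A) :
    Φ.Adf A fun k => (rsF h y k).fd := by
  intro η hη
  have h5 : ∀ᶠ k in UF, ∀ i, ((Lab.ofZ Z') k).leak (A i k) ≤ η * (S.F k).n := by
    rw [Filter.eventually_all]
    intro i
    exact nul_ev (hd i) hη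
  filter_upwards [h5, hy η hη] with k a b
  exact ⟨a, b.2.1, b.2.2.1, b.2.2.2⟩

theorem rs_opt {κ : Type} [Finite κ] {Φ : Gau S α} {A : κ → Part S} {C : LC S} (h : ∀ k, Z' k ≤ Z k)
    {y : ∀ k, FF (Lab.ofZ Z k) α} (hy : Φ.OptfK C A fun k => (y k).fd) (hd : (Lab.ofZ Z').DMf A)
    (hk : C.ev (Lab.ofZ Z')) : Φ.OptfK C A fun k => (rsF h y k).fd :=
  ⟨⟨rs_adf h hy.1.1 hd, hk⟩, fun z hz => hy.2 z hz⟩

/-- CARRIERS over finer literal K-labels -/
theorem car_rs [Finite ι] {s : MSys S M E ι} {R : Rsl S} {B : Part S} {c : ℝ} (h : ∀ k, Z' k ≤ Z k)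
    (hc : Car s R B c (Lab.ofZ Z)) (hd : (Lab.ofZ Z').DMf (scw s B c)) (hk : (KC R).ev (Lab.ofZ Z')) :
    Car s R B c (Lab.ofZ Z') := by
  intro D
  obtain ⟨x, hx, ho⟩ := hc D
  obtain ⟨y, rfl⟩ := exists_ff hx
  exact ⟨fun k => (rsF h y k).fd, fun _ => rfl, rs_opt h ho hd hk⟩

end res

/-- LITERAL CARRIERS finer than a given literal K-label -/
theorem exists_car_le [Finite ι] {s : MSys S M E ι} {R : Rsl S} (hR : KnS R s.Q.v) {c : ℝ} {W₀ : Rsl S}
    (h0 : KLb s R c (Lab.ofZ W₀)) :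
    ∃ W : Rsl S, (∀ k, W k ≤ W₀ k) ∧ Car s R (fun k => fc (R k)) c (Lab.ofZ W) := by
  obtain ⟨l, hl⟩ := exists_car (lit_bd hR) hR c
  have h1 : (Lab.ofZ W₀).DMf (scw s (fun k => fc (R k)) c) := by
    rw [scw_cndR]
    exact h0.1
  have h2 := hl.jn h1 h0.2
  obtain ⟨σ, -, h3, -⟩ := h2.sec (fun _ _ _ => 0) (fun _ _ _ => le_rfl) (fun _ => by simp)
  have e1 : ∀ k ω, (S.F k).μ ω ≠ 0 → ((l k).am (Lab.ofZ W₀ k)).p2.π (σ.f k ω) = ω := fun k ω h => by
    have h5 := (Rf.right (l k) (Lab.ofZ W₀ k)).cm (σ.f k ω) (σ.sp k ω h)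
    exact h5.trans (σ.pr k ω h)
  have key : ∀ k, fc (σ.Z k ⊓ W₀ k) = fc (σ.Z k) := by
    intro k
    apply le_antisymm
    · refine fc_le fun ω ω' a b z v => ⟨v, ?_⟩
      have h4 : (W₀ k) (((l k).am (Lab.ofZ W₀ k)).p2.π (σ.f k ω)) (((l k).am (Lab.ofZ W₀ k)).p2.π (σ.f k ω')) := v.2
      rwa [e1 k ω a, e1 k ω' b] at h4
    · exact fc_mono inf_le_left
  refine ⟨fun k => σ.Z k ⊓ W₀ k, fun k => inf_le_right, car_rs (fun k => inf_le_left) h3 ?_ ?_⟩
  · rw [Lab.ofZ_DMf]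
    intro i
    have h4 := (Lab.ofZ_DMf _).1 h3.dm.1 i
    have e2 : (fun k => fc (σ.Z k ⊓ W₀ k)) = fun k => fc (σ.Z k) := funext key
    rw [e2]
    exact h4
  · filter_upwards [h3.dm.2] with k hk
    have h4 : ((Lab.ofZ σ.Z) k).leak (fc (R k)) = 0 := hk
    rw [Lab.ofZ_leak σ.Z (fun k => fc (R k)) k] at h4
    show ((Lab.ofZ fun k => σ.Z k ⊓ W₀ k) k).leak (fc (R k)) = 0
    rw [Lab.ofZ_leak (fun k => σ.Z k ⊓ W₀ k) (fun k => fc (R k)) k, key]
    exact h4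

/-- the trivial partition is a K-label -/
theorem klb_top (s : MSys S M E ι) (R : Rsl S) (c : ℝ) : KLb s R c (Lab.ofZ fun _ => ⊤) := by
  have h1 : ∀ k (x : FL (S.F k)), ((Lab.ofZ fun k => (⊤ : Setoid (S.F k).Ω)) k).leak x = 0 := by
    intro k x
    refine fc_ind (p := fun x => ((Lab.ofZ fun k => (⊤ : Setoid (S.F k).Ω)) k).leak x = 0) (fun A => ?_) x
    have h2 := Lab.ofZ_leak (fun k => (⊤ : Setoid (S.F k).Ω)) (Function.update (fun k => fc (⊤ : Setoid (S.F k).Ω)) k (fc A)) k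
    rw [Function.update_self] at h2
    rw [h2]
    exact h_zero (fc_mono le_top)
  refine ⟨fun i => ?_, Eventually.of_forall fun k => h1 k _⟩
  show Nul S fun k => ((Lab.ofZ fun k => (⊤ : Setoid (S.F k).Ω)) k).leak (cndR s R c i k)
  have e : (fun k => ((Lab.ofZ fun k => (⊤ : Setoid (S.F k).Ω)) k).leak (cndR s R c i k)) = fun _ => 0 :=
    funext fun k => h1 k _
  rw [e]
  exact Nul_zero S

/-! ### volumes of the prefixes -/

/-- the volumes of degree `D` of the prefixes, K-labels of the window `c` -/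
def Vpf (D : ℕ) (c : ℝ) (v : ℕ → ℝ) (s : MSys S M E ι) (R : Rsl S) : Prop :=
  ∀ (j : ℕ) (hj : j ≤ M), volC (KZ R) (cndR s R c) (pfx s.Q hj) D = v j

/-- the exponents from the numbers -/
theorem vpf_of {s : MSys S M E ι} {R : Rsl S} {c : ℝ} {v : ℕ → ℝ}
    (h1 : ∀ (j : ℕ) (hj : j ≤ M), volP s R c hj = v j)
    (h2 : ∀ (j : ℕ) (hj : j ≤ M), volC (KZ R) (cndR s R c) (pfx s.Q hj) D ≤ volP s R c hj) : Vpf D c v s R :=
  fun j hj => (le_antisymm (h2 j hj) (volCO_le D)).trans (h1 j hj)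

/-- constant volumes for the literal resolution -/
theorem vcn_nrm [Finite ι] {s : MSys S M E ι} {R : Rsl S} (hR : KnS R s.Q.v) {c : ℝ} {v : ℕ → ℝ}
    (hS : Vpf D c v s R) (hX : AllE (fun _ t R' => Vpf D c v t R') S s R) : Vcn s (nrm R s.Q) D c v where
  self := fun {j} hj y hy => by
    have hy' : (gaq (pq hj s.Q) D).OptfK (KC (nrm R s.Q)) (cnA s (dp (nrm R s.Q)) c) y := by
      rw [← cnA_pS hj]
      exact hy
    have h2 := (optfK_res (nrm_fc hR)).1 hy'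
    rw [cnA_dp] at h2
    rw [← volC_eq h2]
    exact hS j hj
  im := fun T p B hB {j} hj y hy => by
    have h1 : ∀ᶠ k in UF, fc (F := (Sp.im p B).F k) (nrm R s.Q k) = fc (F := (Sp.im p B).F k) (R k) :=
      nrm_fc (S := Sp.im p B) (R := R) (Q := (s.im p B hB).Q) (kns_im hR p B)
    have hy' : (gaq (pq hj (s.im p B hB).Q) D).OptfK (KC (S := Sp.im p B) (nrm (S := S) R s.Q))
        (cnA (s.im p B hB) (dp (S := Sp.im p B) (nrm (S := S) R s.Q)) c) y := by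
      rw [← cnA_pS hj]
      exact hy
    have h2 := (optfK_res (S := Sp.im p B) (s := s.im p B hB) h1).1 hy'
    rw [cnA_dp] at h2
    rw [← volC_eq h2]
    exact hX T p B hB j hj

end

end Pool.Agent.Helper4.FRK
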