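import Pool.Agent.Helper4.FFR.Rw
import Pool.Agent.Helper84.KR.Prt
import Pool.Agent.Helper89.RAK.Kz
import Pool.Agent.Helper18.PRM.Crd

/-! FLAG ROWS OF K-LABELS (1): the rows of the parts of one form in the first coordinates. The numbers of the rows are
functions of the form and of the point, so the label with these numbers is a K-label if the label of the form is one. -/

set_option autoImplicit false

namespace Pool.Agent.Helper4.FRK

open Finset Filter Topology Matrix Pool.Agent.Helper69.RK Pool.Agent.Helper31.EC Pool.Agent.Helper31.EC.Sp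
open Pool.Agent.Helper40.EL Pool.Agent.Helper89.LX Pool.Agent.Helper3.LF Pool.Agent.Helper84.MT
open Pool.Agent.Helper7.GZ Pool.Agent.Helper89.RAT
open Pool.Agent.Helper84.KR (prt prt_adf prm prm_Jq inc inc_comp inc_self)
open Pool.Agent.Helper89.RAK (Lit KC addW_kz)
open Pool.Agent.Helper18.PRM (vcrd scrd)
open Pool.Agent.Helper4.FFR (Rows.pi aux_sq)

noncomputable section

variable {S : Sp} {M D : ℕ} {κ : Type} {Q : S.VV M}

/-- gradient bounds of a part of the form -/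
theorem grb_prt {m : ℕ} {σ : Fin m → Fin M} {hσ : Function.Injective σ} {A : κ → Part S}
    {x : ∀ k, FD (S.F k) (Mon M D)} (hx : (gaq Q D).Adf A x) {u : ℝ} (hg : GrB Q x u) :
    GrB (vcrd σ Q) (prt σ hσ x) u := by
  obtain ⟨K, hK, hT⟩ := hg
  refine ⟨K, hK, Typ.mono (S := Lab.sp fun k => (x k).l) hT ?_⟩
  filter_upwards [hx 1 one_pos] with k hk
  intro (ω : (x k).l.T.Ω) hω h e
  have hpd := (hk.2.1 ω hω).1.pdM
  have h1 := h (inc σ *ᵥ e)
  have h2 := prm_Jq hσ hpd (S.dl 1 k) (Q.v k ((x k).l.p.π ω)) (inc σ *ᵥ e)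
  rw [inc_comp hσ] at h2
  rw [inc_self hσ, Matrix.add_mulVec, Matrix.one_mulVec, dotProduct_add, inc_self hσ] at h1
  have h3 : e ⬝ᵥ ((1 + Jq (S.dl 1 k) (prm σ hσ ((x k).g ω)) ((Q.v k ((x k).l.p.π ω)) ∘ σ)) *ᵥ e) ≤
      K k * (S.dl u k / S.dl 1 k) ^ 2 * (e ⬝ᵥ e) := by
    rw [Matrix.add_mulVec, Matrix.one_mulVec, dotProduct_add]
    linarith
  exact h3

/-- the point in the first coordinates -/
abbrev pq {j : ℕ} (hj : j ≤ M) (Q : S.VV M) : S.VV j := vcrd (Fin.castLE hj) Q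

/-- the part of the form in the first coordinates -/
abbrev pre {j : ℕ} (hj : j ≤ M) (x : ∀ k, FD (S.F k) (Mon M D)) : ∀ k, FD (S.F k) (Mon j D) :=
  prt (Fin.castLE hj) (Fin.castLE_injective hj) x

theorem pre_adf {A : κ → Part S} {x : ∀ k, FD (S.F k) (Mon M D)} (hx : (gaq Q D).Adf A x) {j : ℕ} (hj : j ≤ M) :
    (gaq (pq hj Q) D).Adf A (pre hj x) :=
  prt_adf (σ := Fin.castLE hj) (hσ := Fin.castLE_injective hj) (Q := Q) (P := vcrd (Fin.castLE hj) Q)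
    (fun k ω a => Pool.Agent.Helper18.PRM.vcrd_v (Fin.castLE hj) Q k ω a) hx

/-- the numbers of the rows -/
abbrev Bt (M D : ℕ) : Type := ∀ j : Fin M, Fin 1 → RIx (j.val + 1) D

/-- the numbers of the best rows in the last directions of the parts -/
def bi (Q : S.VV M) (x : ∀ k, FD (S.F k) (Mon M D)) (k : ℕ) (ω : (x k).l.T.Ω) : Bt M D := fun j =>
  bnum1 (pq (Nat.succ_le_of_lt j.isLt) Q) (pre (Nat.succ_le_of_lt j.isLt) x) (Fin.last j.val) k ω

/-- the label of the form, with the numbers of the rows -/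
def lab (Q : S.VV M) (x : ∀ k, FD (S.F k) (Mon M D)) : Lab S := ixl (lb x) (bi Q x)

theorem lab_dm {A : κ → Part S} {x : ∀ k, FD (S.F k) (Mon M D)} (h : (lb x).DMf A) : (lab Q x).DMf A := ixl_DMf h _

/-- the numbers are functions of the form and of the point -/
theorem bi_eq {x : ∀ k, FD (S.F k) (Mon M D)} {k : ℕ} {ω ω' : (x k).l.T.Ω} (hg : (x k).g ω = (x k).g ω')
    (hQ : Q.v k ((x k).l.p.π ω) = Q.v k ((x k).l.p.π ω')) : bi Q x k ω = bi Q x k ω' := by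
  funext j
  show (fun _ : Fin 1 => brow (S.dl 1 k) (prm _ _ ((x k).g ω)) (fun i => Q.v k ((x k).l.p.π ω) _) _) =
    fun _ : Fin 1 => brow (S.dl 1 k) (prm _ _ ((x k).g ω')) (fun i => Q.v k ((x k).l.p.π ω') _) _
  rw [hg, hQ]

/-- THE LABEL WITH THE NUMBERS IS A K-LABEL -/
theorem lab_kz {R : ∀ k, Setoid (S.F k).Ω} (hR : Lit R Q) {x : ∀ k, FD (S.F k) (Mon M D)} (h : (KC R).ev (lb x)) :
    (KC R).ev (lab Q x) := by
  filter_upwards [h] with k hk
  exact addW_kz (x k).l (Setoid.ker (bi Q x k)) (R k) hk fun ω ω' a b c d r =>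
    bi_eq ((x k).meas ω ω' a b c d).1 (hR k r)

/-- the exponents of the last directions of the parts -/
def lz (Q : S.VV M) (x : ∀ k, FD (S.F k) (Mon M D)) (j : Fin M) (k : ℕ) (ω : (x k).l.T.Ω) : ℝ :=
  xz (pq (Nat.succ_le_of_lt j.isLt) Q) (Fin.last j.val) k ((x k).l.p.π ω) ((pre (Nat.succ_le_of_lt j.isLt) x k).g ω)

/-- one row -/
def rw1 (hD : 1 ≤ D) {A : κ → Part S} {x : ∀ k, FD (S.F k) (Mon M D)} (hx : (gaq Q D).Adf A x) {u : ℝ}
    (hu : GrB Q x u) (j : Fin M) : Rows Q (lab Q x) 1 D (D + 1) u :=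
  ((rowsOf hD (pre_adf hx (Nat.succ_le_of_lt j.isLt)).fm (bnum1 (pq (Nat.succ_le_of_lt j.isLt) Q)
    (pre (Nat.succ_le_of_lt j.isLt) x) (Fin.last j.val)) (grb_prt hx hu)).ren
      (Fin.castLE (Nat.succ_le_of_lt j.isLt)) (Fin.castLE_injective _) (fun _ _ _ => rfl)).pull
    (fun k => idj (x k).l.T) (Eventually.of_forall fun _ _ _ => rfl)
    (Eventually.of_forall fun _ _ _ _ _ _ h => ⟨h.1, congrFun (show bi Q x _ _ = bi Q x _ _ from h.2) j⟩)

/-- THE ROWS -/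
def rws (hD : 1 ≤ D) {A : κ → Part S} {x : ∀ k, FD (S.F k) (Mon M D)} (hx : (gaq Q D).Adf A x) {u : ℝ}
    (hu : GrB Q x u) : Rows Q (lab Q x) M D (D + 1) u := Rows.pi fun j => rw1 hD hx hu j

/-- the polynomial before it is read in all variables -/
def pj (Q : S.VV M) (x : ∀ k, FD (S.F k) (Mon M D)) (j : Fin M) (k : ℕ) (ω : (x k).l.T.Ω) :
    MvPolynomial (Fin (j.val + 1)) ℝ :=
  rfam (S.dl 1 k) ((pre (Nat.succ_le_of_lt j.isLt) x k).g ω) (bnum1 (pq (Nat.succ_le_of_lt j.isLt) Q)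
    (pre (Nat.succ_le_of_lt j.isLt) x) (Fin.last j.val) k ω 0)

section
variable (hD : 1 ≤ D) {A : κ → Part S} {x : ∀ k, FD (S.F k) (Mon M D)} (hx : (gaq Q D).Adf A x) {u : ℝ}
    (hu : GrB Q x u)

theorem rws_p (k : ℕ) (ω : (x k).l.T.Ω) (j : Fin M) : (rws hD hx hu).p k ω j =
    MvPolynomial.rename (Fin.castLE (Nat.succ_le_of_lt j.isLt)) (pj Q x j k ω) := rfl

/-- the rows are triangular -/
theorem rws_tri (k : ℕ) (ω : (x k).l.T.Ω) (j : Fin M) : ∀ a ∈ ((rws hD hx hu).p k ω j).vars, a ≤ j := by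
  classical
  intro a ha
  rw [rws_p] at ha
  have h1 := MvPolynomial.vars_rename _ _ ha
  rw [Finset.mem_image] at h1
  obtain ⟨b, -, rfl⟩ := h1
  rw [Fin.le_def]
  exact Nat.le_of_lt_succ b.2

/-- the derivative in the last direction -/
theorem rws_pd (k : ℕ) (ω : (x k).l.T.Ω) (j : Fin M) :
    MvPolynomial.eval (Q.v k ((x k).l.p.π ω)) (MvPolynomial.pderiv j ((rws hD hx hu).p k ω j)) =
      MvPolynomial.eval ((pq (Nat.succ_le_of_lt j.isLt) Q).v k ((x k).l.p.π ω))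
        (MvPolynomial.pderiv (Fin.last j.val) (pj Q x j k ω)) := by
  have e1 : j = Fin.castLE (Nat.succ_le_of_lt j.isLt) (Fin.last j.val) := Fin.ext rfl
  have e2 : MvPolynomial.pderiv j ((rws hD hx hu).p k ω j) =
      MvPolynomial.rename (Fin.castLE (Nat.succ_le_of_lt j.isLt)) (MvPolynomial.pderiv (Fin.last j.val) (pj Q x j k ω)) := by
    rw [rws_p, ← MvPolynomial.pderiv_rename (Fin.castLE_injective (Nat.succ_le_of_lt j.isLt)) (Fin.last j.val)
      (pj Q x j k ω)]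
    exact congrArg (fun i => MvPolynomial.pderiv i
      (MvPolynomial.rename (Fin.castLE (Nat.succ_le_of_lt j.isLt)) (pj Q x j k ω))) e1
  rw [e2, MvPolynomial.eval_rename]
  rfl

/-- THE DERIVATIVES of the rows -/
theorem rws_der :
    ∃ C : ℝ, 1 ≤ C ∧ ∀ᶠ k in UF, ∀ ω : (x k).l.T.Ω, (x k).l.T.μ ω ≠ 0 → ∀ j : Fin M,
      |MvPolynomial.eval (Q.v k ((x k).l.p.π ω)) (MvPolynomial.pderiv j ((rws hD hx hu).p k ω j))| ≤
        2 ^ (lz Q x j k ω * (S.F k).n) ∧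
      2 ^ (lz Q x j k ω * (S.F k).n) ≤ C *
        |MvPolynomial.eval (Q.v k ((x k).l.p.π ω)) (MvPolynomial.pderiv j ((rws hD hx hu).p k ω j))| := by
  have h1 : ∀ᶠ k in UF, ∀ j : Fin M, ∀ ω : (x k).l.T.Ω, (x k).l.T.μ ω ≠ 0 →
      (1 + Jq (S.dl 1 k) ((pre (Nat.succ_le_of_lt j.isLt) x k).g ω)
        ((pq (Nat.succ_le_of_lt j.isLt) Q).v k ((x k).l.p.π ω))) (Fin.last j.val) (Fin.last j.val) ≤
        nrw (j.val + 1) D * (MvPolynomial.eval ((pq (Nat.succ_le_of_lt j.isLt) Q).v k ((x k).l.p.π ω))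
          (MvPolynomial.pderiv (Fin.last j.val) (pj Q x j k ω))) ^ 2 ∧
      (MvPolynomial.eval ((pq (Nat.succ_le_of_lt j.isLt) Q).v k ((x k).l.p.π ω))
          (MvPolynomial.pderiv (Fin.last j.val) (pj Q x j k ω))) ^ 2 ≤
        (1 + Jq (S.dl 1 k) ((pre (Nat.succ_le_of_lt j.isLt) x k).g ω)
        ((pq (Nat.succ_le_of_lt j.isLt) Q).v k ((x k).l.p.π ω))) (Fin.last j.val) (Fin.last j.val) :=
    eventually_all.2 fun j => rows_row hD (pre_adf hx (Nat.succ_le_of_lt j.isLt)).fm (grb_prt hx hu) (Fin.last j.val)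
  have h2 : ∀ᶠ k in UF, ∀ j : Fin M, ∀ ω : (x k).l.T.Ω, (x k).l.T.μ ω ≠ 0 →
      Cpd ((gaq (pq (Nat.succ_le_of_lt j.isLt) Q) D).cp k) ((pre (Nat.succ_le_of_lt j.isLt) x k).g ω) :=
    eventually_all.2 fun j => ((pre_adf hx (Nat.succ_le_of_lt j.isLt)) 1 one_pos).mono fun k hk ω hω => (hk.2.1 ω hω).1
  refine ⟨1 + ∑ j : Fin M, (nrw (j.val + 1) D : ℝ), ?_, ?_⟩
  · have : (0 : ℝ) ≤ ∑ j : Fin M, (nrw (j.val + 1) D : ℝ) := Finset.sum_nonneg fun j _ => Nat.cast_nonneg _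
    linarith
  filter_upwards [h1, h2] with k a b ω hω j
  have hn := (S.F k).pos
  obtain ⟨a1, a2⟩ := a j ω hω
  have hB := b j ω hω
  rw [rws_pd]
  set d : ℝ := MvPolynomial.eval ((pq (Nat.succ_le_of_lt j.isLt) Q).v k ((x k).l.p.π ω))
    (MvPolynomial.pderiv (Fin.last j.val) (pj Q x j k ω)) with hd
  set J : ℝ := (1 + Jq (S.dl 1 k) ((pre (Nat.succ_le_of_lt j.isLt) x k).g ω)
    ((pq (Nat.succ_le_of_lt j.isLt) Q).v k ((x k).l.p.π ω))) (Fin.last j.val) (Fin.last j.val) with hJ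
  have hJz : J = Jz (pq (Nat.succ_le_of_lt j.isLt) Q) (Fin.last j.val) k ((x k).l.p.π ω)
      ((pre (Nat.succ_le_of_lt j.isLt) x k).g ω) := by
    rw [hJ, Matrix.add_apply, Matrix.one_apply_eq]
    rfl
  have hJ1 : 1 ≤ J := by
    have h3 := one_le_Jz (pq (Nat.succ_le_of_lt j.isLt) Q) (Fin.last j.val) k ((x k).l.p.π ω)
      (A := (pre (Nat.succ_le_of_lt j.isLt) x k).g ω) (fun v => hB.psd.2 v)
    rw [hJz]
    exact h3
  have hJe : (2 ^ (lz Q x j k ω * (S.F k).n)) ^ 2 = J := by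
    have h4 : lz Q x j k ω = Real.logb 2 J / (2 * (S.F k).n) := by
      rw [hJz]
      rfl
    rw [h4, ← Real.rpow_natCast, ← Real.rpow_mul (by norm_num)]
    have h5 : Real.logb 2 J / (2 * (S.F k).n) * (S.F k).n * ((2 : ℕ) : ℝ) = Real.logb 2 J := by
      push_cast
      field_simp
    rw [h5, Real.rpow_logb (by norm_num) (by norm_num) (by linarith)]
  have hp : (0 : ℝ) < 2 ^ (lz Q x j k ω * (S.F k).n) := by positivity
  have hC1 : 0 ≤ ∑ j : Fin M, (nrw (j.val + 1) D : ℝ) := Finset.sum_nonneg fun j _ => Nat.cast_nonneg _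
  have hC : (nrw (j.val + 1) D : ℝ) ≤ 1 + ∑ j : Fin M, (nrw (j.val + 1) D : ℝ) := by
    have h7 : (nrw (j.val + 1) D : ℝ) ≤ ∑ j : Fin M, (nrw (j.val + 1) D : ℝ) :=
      Finset.single_le_sum (f := fun j : Fin M => (nrw (j.val + 1) D : ℝ))
        (fun i _ => Nat.cast_nonneg _) (Finset.mem_univ j)
    linarith
  exact aux_sq (by linarith) hp.le hJe hC a1 a2

end

end

end Pool.Agent.Helper4.FRK
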