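import Pool.Agent.Helper4.FRK.Lit

/-! FLAG ROWS OF K-LABELS (4): coefficients of the rows; rows cut off at large coefficients; flag rows over literal
carriers. -/

set_option autoImplicit false

namespace Pool.Agent.Helper4.FRK

open Finset Filter Topology Matrix Pool.Agent.Helper69.RK Pool.Agent.Helper31.EC Pool.Agent.Helper31.EC.Sp
open Pool.Agent.Helper40.EL Pool.Agent.Helper89.LX Pool.Agent.Helper3.LF Pool.Agent.Helper84.MT
open Pool.Agent.Helper77.WDG (nrm coeff_le_nrm)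
open Pool.Agent.Helper7.GZ Pool.Agent.Helper89.RAT
open Pool.Agent.Helper84.KR (prm prm_cpd)
open Pool.Agent.Helper89.RAK (Lit KC addW_kz)
open Pool.Agent.Helper89.RAD (cnA dp DMD cnA_dp)
open Pool.Agent.Helper85.FRG (FF exists_ff Car scw_cndR)
open Pool.Agent.Helper87.NSL (KnS cndR)
open Pool.Agent.Helper52.GF (scw)
open Pool.Agent.Helper48.ROK (nrm_lit nrm_fc optfK_res ev_res)
open Pool.Agent.Helper29.MX (Rsl KLb KOp KZ AllE)

noncomputable section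

variable {S : Sp} {M M' D : ℕ} {E : ℕ → ℕ} {ι κ : Type} {Q : S.VV M}

/-- THE SIZE of a form: the matrix is typically at most `2 ^ (2 Λ n)` -/
def Sz (x : ∀ k, FD (S.F k) (Mon M D)) (Λ : ℝ) : Prop := Typ (S := (lb x).sp) (fun k (ω : (x k).l.T.Ω) =>
  ∀ w, qf ((x k).g ω) w ≤ 2 ^ (2 * Λ * (S.F k).n) * (w ⬝ᵥ w))

/-- every form has the size `D + 1` -/
theorem sz_top {A : κ → Part S} {x : ∀ k, FD (S.F k) (Mon M D)} (hx : (gaq Q D).Adf A x) {Λ : ℝ}
    (hΛ : (D : ℝ) + 1 ≤ Λ) : Sz x Λ := by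
  refine Typ.mono (S := (lb x).sp) Typ_true ?_
  filter_upwards [hx 1 one_pos] with k hk
  intro (ω : (x k).l.T.Ω) hω _ w
  refine ((hk.2.1 ω hω).1.2.2 w).trans (mul_le_mul_of_nonneg_right ?_ (dot_self_nonneg w))
  have h3 : (gaq Q D).cp k = 2 ^ (2 * ((D : ℝ) + 1) * (S.F k).n) := by
    unfold Gau.cp
    congr 1
    show (2 * (D : ℝ) + 1 + 1) * (S.F k).n = _
    ring
  rw [h3]
  apply Real.rpow_le_rpow_of_exponent_le (by norm_num)
  have := (S.F k).pos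
  nlinarith

/-- THE COEFFICIENTS of the rows -/
theorem rws_coef (hD : 1 ≤ D) {A : κ → Part S} {x : ∀ k, FD (S.F k) (Mon M D)} (hx : (gaq Q D).Adf A x) {u : ℝ}
    (hu : GrB Q x u) {Λ : ℝ} (hΛ : 0 ≤ Λ) (hz : Sz x Λ) : ∃ K : ℕ → ℝ, S.Sub K ∧
      Typ (S := (lab Q x).sp) (fun k (ω : (x k).l.T.Ω) => ∀ (j : Fin M) (a : Fin M →₀ ℕ),
        |((rws hD hx hu).p k ω j).coeff a| ≤ K k * 2 ^ (Λ * (S.F k).n)) := by
  classical
  refine ⟨fun _ => ∑ j : Fin M, (Fintype.card (Mon (j.val + 1) D) : ℝ) * 2 ^ D,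
    S.Sub_const (Finset.sum_nonneg fun j _ => by positivity), ?_⟩
  refine Typ.mono (S := (lb x).sp) hz ?_
  filter_upwards [hx 1 one_pos] with k hk
  intro (ω : (x k).l.T.Ω) hω h j a
  have hn := (S.F k).pos
  have hc := (hk.2.1 ω hω).1
  have hc' : Cpd (2 ^ (2 * Λ * (S.F k).n)) ((x k).g ω) := ⟨hc.1, hc.2.1, h⟩
  have h1 : (1 : ℝ) ≤ 2 ^ (2 * Λ * (S.F k).n) := Real.one_le_rpow (by norm_num) (by positivity)
  have hp := prm_cpd (Fin.castLE_injective (Nat.succ_le_of_lt j.isLt)) hc'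
  have hr := rfam_nrm (S.dl_pos 1 k).le (dl_one_le S k) h1 hp (bnum1 (pq (Nat.succ_le_of_lt j.isLt) Q)
    (pre (Nat.succ_le_of_lt j.isLt) x) (Fin.last j.val) k ω 0)
  have hs : Real.sqrt (2 ^ (2 * Λ * (S.F k).n)) = 2 ^ (Λ * (S.F k).n) := by
    have e1 : (2 : ℝ) ^ (2 * Λ * (S.F k).n) = (2 ^ (Λ * (S.F k).n)) ^ 2 := by
      rw [← Real.rpow_natCast, ← Real.rpow_mul (by norm_num)]
      congr 1
      push_cast
      ring
    rw [e1, Real.sqrt_sq (by positivity)]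
  rw [hs] at hr
  have hb : ∀ b, |(pj Q x j k ω).coeff b| ≤ (Fintype.card (Mon (j.val + 1) D) : ℝ) * 2 ^ D * 2 ^ (Λ * (S.F k).n) :=
    fun b => (coeff_le_nrm _ b).trans hr
  have hsum : (Fintype.card (Mon (j.val + 1) D) : ℝ) * 2 ^ D ≤
      ∑ j : Fin M, (Fintype.card (Mon (j.val + 1) D) : ℝ) * 2 ^ D :=
    Finset.single_le_sum (f := fun j : Fin M => (Fintype.card (Mon (j.val + 1) D) : ℝ) * 2 ^ D)
      (fun i _ => by positivity) (Finset.mem_univ j)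
  show |((rws hD hx hu).p k ω j).coeff a| ≤ (∑ j : Fin M, (Fintype.card (Mon (j.val + 1) D) : ℝ) * 2 ^ D) *
    2 ^ (Λ * (S.F k).n)
  rw [rws_p]
  by_cases ha : ∃ b : Fin (j.val + 1) →₀ ℕ, b.mapDomain (Fin.castLE (Nat.succ_le_of_lt j.isLt)) = a
  · obtain ⟨b, rfl⟩ := ha
    rw [MvPolynomial.coeff_rename_mapDomain _ (Fin.castLE_injective _)]
    exact (hb b).trans (mul_le_mul_of_nonneg_right hsum (by positivity))
  · rw [MvPolynomial.coeff_rename_eq_zero _ _ _ (fun b hb => absurd ⟨b, hb⟩ ha), abs_zero]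
    exact mul_nonneg ((by positivity : (0 : ℝ) ≤ (Fintype.card (Mon (j.val + 1) D) : ℝ) * 2 ^ D).trans hsum)
      (by positivity)

/-! ### rows cut off -/

section cut
variable {l : Lab S} {Λ Λ' u : ℝ}

open Classical in
/-- ROWS CUT OFF where a coefficient is large -/
def Rows.cut (P : Rows Q l M' D Λ u) {K : ℕ → ℝ} (hK : S.Sub K)
    (h : Typ (S := l.sp) (fun k (ω : (l k).T.Ω) => ∀ (j : Fin M') (a : Fin M →₀ ℕ),
      |(P.p k ω j).coeff a| ≤ K k * 2 ^ (Λ' * (S.F k).n))) : Rows Q l M' D Λ' u where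
  p := fun k ω => if ∀ (j : Fin M') (a : Fin M →₀ ℕ), |(P.p k ω j).coeff a| ≤ K k * 2 ^ (Λ' * (S.F k).n) then
    P.p k ω else 0
  deg := fun k ω j => by
    split_ifs with h1
    · exact P.deg k ω j
    · simp
  fn := by
    filter_upwards [P.fn] with k hk ω ω' a b c d
    rw [hk ω ω' a b c d]
  cf := by
    refine ⟨K, hK, ?_⟩
    filter_upwards [hK.1] with k hk ω _ j a
    split_ifs with h1
    · exact h1 j a
    · simp only [Pi.zero_apply, MvPolynomial.coeff_zero, abs_zero]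
      positivity
  bd := by
    obtain ⟨K', hK', hb⟩ := P.bd
    refine ⟨K', hK', Typ.mono (S := l.sp) (hb.and h) (Eventually.of_forall fun k ω _ h2 j => ?_)⟩
    rw [if_pos h2.2]
    exact h2.1 j
  lp := fun L hL => by
    obtain ⟨K', hK', hb⟩ := P.lp L hL
    refine ⟨K', hK', Typ.mono (S := l.sp) (hb.and h) (Eventually.of_forall fun k ω _ h2 y hy j => ?_)⟩
    rw [if_pos h2.2]
    exact h2.1 y hy j

variable (P : Rows Q l M' D Λ u) {K : ℕ → ℝ} (hK : S.Sub K)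
    (h : Typ (S := l.sp) (fun k (ω : (l k).T.Ω) => ∀ (j : Fin M') (a : Fin M →₀ ℕ),
      |(P.p k ω j).coeff a| ≤ K k * 2 ^ (Λ' * (S.F k).n)))

/-- the cut rows are typically the rows -/
theorem Rows.cut_typ : Typ (S := l.sp) (fun k (ω : (l k).T.Ω) => (Rows.cut P hK h).p k ω = P.p k ω) :=
  Typ.mono (S := l.sp) h (Eventually.of_forall fun _ _ _ h1 => if_pos h1)

theorem Rows.cut_or (k : ℕ) (ω : (l k).T.Ω) : (Rows.cut P hK h).p k ω = P.p k ω ∨ (Rows.cut P hK h).p k ω = 0 := by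
  classical
  by_cases h1 : ∀ (j : Fin M') (a : Fin M →₀ ℕ), |(P.p k ω j).coeff a| ≤ K k * 2 ^ (Λ' * (S.F k).n)
  · exact Or.inl (if_pos h1)
  · exact Or.inr (if_neg h1)

end cut

/-! ### flag rows over literal carriers -/

/-- the rows are a FLAG with the exponents `lam` -/
structure FlR {l : Lab S} {Λ u : ℝ} (P : Rows Q l M D Λ u) (lam : Fin M → ℝ) : Prop where
  tri : ∀ k ω j, ∀ i ∈ (P.p k ω j).vars, i ≤ j
  ex : ∀ e : ℝ, 0 < e → Typ (S := l.sp) (fun k (ω : (l k).T.Ω) => ∀ j,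
    2 ^ ((lam j - e) * (S.F k).n) ≤ |MvPolynomial.eval (Q.v k ((l k).p.π ω)) (MvPolynomial.pderiv j (P.p k ω j))| ∧
    |MvPolynomial.eval (Q.v k ((l k).p.π ω)) (MvPolynomial.pderiv j (P.p k ω j))| ≤ 2 ^ ((lam j + e) * (S.F k).n))

theorem FlR.cut {l : Lab S} {Λ Λ' u : ℝ} {P : Rows Q l M D Λ u} {lam : Fin M → ℝ} (hP : FlR P lam) {K : ℕ → ℝ}
    (hK : S.Sub K) (h : Typ (S := l.sp) (fun k (ω : (l k).T.Ω) => ∀ (j : Fin M) (a : Fin M →₀ ℕ),
      |(P.p k ω j).coeff a| ≤ K k * 2 ^ (Λ' * (S.F k).n))) : FlR (Rows.cut P hK h) lam where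
  tri := fun k ω j i hi => by
    rcases Rows.cut_or P hK h k ω with h1 | h1
    · rw [h1] at hi
      exact hP.tri k ω j i hi
    · rw [h1, Pi.zero_apply, MvPolynomial.vars_0] at hi
      exact absurd hi (Finset.notMem_empty i)
  ex := fun e he => by
    refine Typ.mono (S := l.sp) ((hP.ex e he).and (Rows.cut_typ P hK h)) (Eventually.of_forall fun k ω _ h2 => ?_)
    rw [h2.2]
    exact h2.1

section
variable [Finite ι] {g : ℕ} {s : MSys S M (lin g) ι} {R : Rsl S}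

/-- the rows of an optimal form of degree `D` are a flag -/
theorem rws_flag (hR : KnS R s.Q.v) (hD : 1 ≤ D) (hst : ∀ j, j < M → ∀ r, STm D j (lin g) (Fin r)) {c : ℝ}
    (h0 : 0 ≤ c) (h1 : c < 1) {v : ℕ → ℝ} (hv : Vcn s (Pool.Agent.Helper48.ROK.nrm R s.Q) D c v)
    {x : ∀ k, FD (S.F k) (Mon M D)} (hx : KOp s R D c x) {u : ℝ} (hu : GrB s.Q x u) :
    FlR (rws hD hx.1.1 hu) fun j : Fin M => thv v j.val where
  tri := rws_tri hD hx.1.1 hu
  ex := fun e he => by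
    have hx' : KO s (Pool.Agent.Helper48.ROK.nrm R s.Q) D c x := by
      refine (optfK_res (nrm_fc hR)).2 ?_
      rw [cnA_dp]
      exact hx
    have h2 : ∀ j : Fin M, Typ (S := (lb x).sp) (fun k (ω : (x k).l.T.Ω) => |lz s.Q x j k ω - thv v j.val| ≤ e / 2) :=
      fun j => typ_lz (nrm_lit R s.Q) hD hst h0 h1 hv hx' j (e / 2) (by linarith)
    obtain ⟨C, hC, hd⟩ := rws_der hD hx.1.1 hu
    have h3 : Tendsto (fun k => Real.logb 2 C / (S.F k).n) UF (𝓝 0) := S.div_n_tendsto _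
    refine Typ.mono (S := (lb x).sp) (Typ_all (S := (lb x).sp) _ h2) ?_
    filter_upwards [hd, h3.eventually (gt_mem_nhds (show (0 : ℝ) < e / 2 by linarith))] with k a b
    intro (ω : (x k).l.T.Ω) hω h j
    have hn := (S.F k).pos
    obtain ⟨a1, a2⟩ := a ω hω j
    have h4 := abs_le.mp (h j)
    have h5 : (2 : ℝ) ^ (Real.logb 2 C) = C := Real.rpow_logb (by norm_num) (by norm_num) (by linarith)
    have h6 : Real.logb 2 C ≤ e / 2 * (S.F k).n := by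
      rw [div_lt_iff₀ hn] at b
      exact b.le
    constructor
    · have h7 : (2 : ℝ) ^ ((thv v j.val - e) * (S.F k).n) * C ≤ 2 ^ (lz s.Q x j k ω * (S.F k).n) := by
        nth_rewrite 1 [← h5]
        rw [← Real.rpow_add (by norm_num)]
        apply Real.rpow_le_rpow_of_exponent_le (by norm_num)
        nlinarith [h4.1]
      have h8 : (2 : ℝ) ^ ((thv v j.val - e) * (S.F k).n) * C ≤
          C * |MvPolynomial.eval (s.Q.v k ((x k).l.p.π ω)) (MvPolynomial.pderiv j ((rws hD hx.1.1 hu).p k ω j))| :=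
        h7.trans a2
      rw [mul_comm] at h8
      exact le_of_mul_le_mul_left h8 (by linarith)
    · refine a1.trans (Real.rpow_le_rpow_of_exponent_le (by norm_num) ?_)
      exact mul_le_mul_of_nonneg_right (by linarith [h4.2]) hn.le

/-- **FLAG ROWS OVER LITERAL CARRIERS** (finer than a given literal carrier) -/
theorem exists_flr (hR : KnS R s.Q.v) (hD : 1 ≤ D) (hst : ∀ j, j < M → ∀ r, STm D j (lin g) (Fin r)) {c : ℝ}
    (h0 : 0 ≤ c) (h1 : c < 1) {v : ℕ → ℝ} (hS : Vpf D c v s R) (hX : AllE (fun _ t R' => Vpf D c v t R') S s R)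
    {u Λ : ℝ} (hΛ : 0 ≤ Λ) (hu : ∀ x : ∀ k, FD (S.F k) (Mon M D), KOp s R D c x → GrB s.Q x u)
    (hz : ∀ x : ∀ k, FD (S.F k) (Mon M D), KOp s R D c x → Sz x Λ) {W : Rsl S}
    (hW : Car s R (fun k => fc (R k)) c (Lab.ofZ W)) :
    ∃ (W' : Rsl S) (P : Rows s.Q (Lab.ofZ W') M D Λ u), (∀ k, W' k ≤ W k) ∧ KLb s R c (Lab.ofZ W') ∧
      Car s R (fun k => fc (R k)) c (Lab.ofZ W') ∧ FlR P fun j : Fin M => thv v j.val := by
  obtain ⟨x, hx, ho⟩ := hW D
  obtain ⟨y, rfl⟩ := exists_ff hx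
  set x : ∀ k, FD (S.F k) (Mon M D) := fun k => (y k).fd with hxd
  have hx1 : KOp s R D c x := by
    rw [scw_cndR] at ho
    exact ho
  have hv := vcn_nrm hR hS hX
  have hu1 := hu x hx1
  have hF := rws_flag hR hD hst h0 h1 hv hx1 hu1
  obtain ⟨K, hK, hco⟩ := rws_coef hD hx1.1.1 hu1 hΛ (hz x hx1)
  have hdm : (lab s.Q x).DMf (cndR s R c) := lab_dm (Gau.AdfK.dm _ hx1.1)
  have hkz : (KC R).ev (lab s.Q x) := by
    rw [← ev_res (nrm_fc hR)]
    exact lab_kz (nrm_lit R s.Q) ((ev_res (nrm_fc hR) _).2 hx1.1.2)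
  have hle : ∀ k, W k ⊓ Setoid.ker (bi s.Q x k) ≤ W k := fun k => inf_le_left
  refine ⟨fun k => W k ⊓ Setoid.ker (bi s.Q x k), Rows.cut (rws hD hx1.1.1 hu1) hK hco, hle, ⟨hdm, hkz⟩, ?_, ?_⟩
  · refine car_rs hle hW ?_ hkz
    rw [scw_cndR]
    exact hdm
  · exact hF.cut hK hco

end

end

end Pool.Agent.Helper4.FRK
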