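import Pool.Agent.Helper4.FRK.Rw
import Pool.Agent.Helper4.FFR.Mean
import Pool.Agent.Helper48.ROK.Ev
import Pool.Agent.Helper89.RAD.Sd

/-! FLAG ROWS OF K-LABELS (2): if the volumes of the optimal K-forms of the prefixes are constant on all events, the
exponents of the rows are typically constant: `1 - (v (j + 1) - v j)`. -/

set_option autoImplicit false

namespace Pool.Agent.Helper4.FRK

open Finset Filter Topology Matrix Pool.Agent.Helper69.RK Pool.Agent.Helper31.EC Pool.Agent.Helper31.EC.Sp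
open Pool.Agent.Helper40.EL Pool.Agent.Helper89.LX Pool.Agent.Helper3.LF Pool.Agent.Helper84.MT
open Pool.Agent.Helper7.GZ Pool.Agent.Helper89.RAT
open Pool.Agent.Helper84.KR (prt prt_adf optK_prt)
open Pool.Agent.Helper89.RAK (Lit KC addW_kz)
open Pool.Agent.Helper89.RAD (cnA dp DMD stD stD_eq zxD_eq)
open Pool.Agent.Helper18.PRM (vcrd scrd)
open Pool.Agent.Helper3.KL (vol_optK_le)
open Pool.Agent.Helper48.ROK (typ_low)

noncomputable section

variable {S : Sp} {M D : ℕ} {E : ℕ → ℕ} {ι : Type} {s : MSys S M E ι} {R : ∀ k, Setoid (S.F k).Ω}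

/-- optimal forms over K-labels of the window `c` (resolution `R`) -/
abbrev KO (s : MSys S M E ι) (R : ∀ k, Setoid (S.F k).Ω) (D : ℕ) (c : ℝ) (x : ∀ k, FD (S.F k) (Mon M D)) : Prop :=
  (gaq s.Q D).OptfK (KC R) (cnA s (dp R) c) x

/-- the system of the first coordinates -/
abbrev pS {j : ℕ} (hj : j ≤ M) (s : MSys S M E ι) : MSys S j E ι := scrd (Fin.castLE hj) s

theorem cnA_pS {j : ℕ} (hj : j ≤ M) (s : MSys S M E ι) (A : Part S) (c : ℝ) : cnA (pS hj s) A c = cnA s A c := by
  funext i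
  rcases i with _ | i
  · rfl
  · rfl

/-- the part of an optimal form is optimal -/
theorem pre_KO {c : ℝ} {x : ∀ k, FD (S.F k) (Mon M D)} (hx : KO s R D c x) {j : ℕ} (hj : j ≤ M) :
    KO (pS hj s) R D c (pre hj x) := by
  show (gaq (pq hj s.Q) D).OptfK (KC R) (cnA (pS hj s) (dp R) c) (pre hj x)
  rw [cnA_pS]
  exact optK_prt (σ := Fin.castLE hj) (hσ := Fin.castLE_injective hj) (Q := s.Q) (P := vcrd (Fin.castLE hj) s.Q)
    (fun k ω a => Pool.Agent.Helper18.PRM.vcrd_v (Fin.castLE hj) s.Q k ω a) hx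

theorem pS_lit (hR : Lit R s.Q) {j : ℕ} (hj : j ≤ M) : Lit R (pS hj s).Q := by
  intro k ω ω' r
  have h1 : s.Q.v k ω = s.Q.v k ω' := hR k r
  show (fun a => s.Q.v k ω (Fin.castLE hj a)) = fun a => s.Q.v k ω' (Fin.castLE hj a)
  rw [h1]

/-- CONSTANT VOLUMES: the optimal K-forms of degree `D` of the first `j` coordinates have the volume `v j`, on the space
and on all events of all extensions -/
structure Vcn (s : MSys S M E ι) (R : ∀ k, Setoid (S.F k).Ω) (D : ℕ) (c : ℝ) (v : ℕ → ℝ) : Prop where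
  self : ∀ {j : ℕ} (hj : j ≤ M) (y : ∀ k, FD (S.F k) (Mon j D)), KO (pS hj s) R D c y → vol (pq hj s.Q) D y = v j
  im : ∀ (T : Sp) (p : Pj T S) (B : ∀ k, (T.F k).Ω → Prop) (hB : 0 < ul (T.pr B)) {j : ℕ} (hj : j ≤ M)
    (y : ∀ k, FD ((Sp.im p B).F k) (Mon j D)), KO (S := Sp.im p B) (pS hj (s.im p B hB)) R D c y →
      vol (pq hj (s.im p B hB).Q) D y = v j

/-- the exponent of the row `j` -/
abbrev thv (v : ℕ → ℝ) (j : ℕ) : ℝ := 1 - (v (j + 1) - v j)

section
variable [Finite ι] {g : ℕ} {s : MSys S M (lin g) ι} (hlit : Lit R s.Q) (hD : 1 ≤ D)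
  (hst : ∀ j, j < M → ∀ r, STm D j (lin g) (Fin r)) {c : ℝ} (h0 : 0 ≤ c) (h1 : c < 1) {v : ℕ → ℝ}
  (hv : Vcn s R D c v) {x : ∀ k, FD (S.F k) (Mon M D)} (hx : KO s R D c x)

include hlit hD hst h0 h1 hv hx

/-- the mean exponent -/
theorem zx_pre (j : Fin M) : zx (pq (Nat.succ_le_of_lt j.isLt) s.Q) (Fin.last j.val)
    (pre (Nat.succ_le_of_lt j.isLt) x) = thv v j.val := by
  have hx1 := pre_KO hx (Nat.succ_le_of_lt j.isLt)
  have hx0 := pre_KO hx j.isLt.le
  have e1 := zxD_eq (s := pS (Nat.succ_le_of_lt j.isLt) s) (hst j.val j.isLt) (pS_lit hlit _) (Fin.last j.val)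
    (pq j.isLt.le s.Q) (fun k ω a => by
      rw [Fin.succAbove_last]
      rfl) hD h0 h1 hx1
  have e2 := stD_eq (s := pS j.isLt.le s) (hst j.val j.isLt) (pS_lit hlit _) hD h0 h1 hx0
  have e3 := hv.self _ _ hx1
  have e4 := hv.self _ _ hx0
  have e5 : H (up1 (lb (pre (Nat.succ_le_of_lt j.isLt) x)) ((pq j.isLt.le s.Q).dg 1)) = v j.val := by
    rw [← e4]
    exact e2.symm
  have e6 : zx (pq (Nat.succ_le_of_lt j.isLt) s.Q) (Fin.last j.val) (pre (Nat.succ_le_of_lt j.isLt) x) =
      1 - vol (pq (Nat.succ_le_of_lt j.isLt) s.Q) D (pre (Nat.succ_le_of_lt j.isLt) x) +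
        H (up1 (lb (pre (Nat.succ_le_of_lt j.isLt) x)) ((pq j.isLt.le s.Q).dg 1)) := e1
  rw [e6, e3, e5]
  ring

/-- **THE EXPONENTS OF THE ROWS ARE TYPICALLY CONSTANT** -/
theorem typ_lz (j : Fin M) (e : ℝ) (he : 0 < e) :
    Typ (S := (lb x).sp) (fun k (ω : (x k).l.T.Ω) => |lz s.Q x j k ω - thv v j.val| ≤ e) := by
  have hx1 := pre_KO hx (Nat.succ_le_of_lt j.isLt)
  have hlow : ∀ e : ℝ, 0 < e → Typ (S := (lb x).sp) (fun k (ω : (x k).l.T.Ω) => thv v j.val - e ≤ lz s.Q x j k ω) :=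
    fun e he => typ_low (A := cnA (pS (Nat.succ_le_of_lt j.isLt) s) (dp R) c) (pS_lit hlit (Nat.succ_le_of_lt j.isLt))
      hD hx1 (Fin.last j.val) (pq j.isLt.le s.Q) Fin.castSucc (fun a h => by
        have h2 := congrArg Fin.val h
        rw [Fin.val_last, Fin.val_castSucc] at h2
        exact absurd h2 a.isLt.ne) (fun k ω a => rfl) (a := v j.val) (θ := thv v j.val)
      (fun T p B hB l hl hk => by
        obtain ⟨y, hy⟩ := (gaq (pS j.isLt.le (s.im p B hB)).Q D).exists_optfK (KC (S := Sp.im p B) R)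
          (cnA (pS j.isLt.le (s.im p B hB)) (dp (S := Sp.im p B) R) c)
        have hl' : DMD (pS j.isLt.le (s.im p B hB)) (dp (S := Sp.im p B) R) R c l := by
          refine ⟨?_, hk⟩
          intro i
          have h2 := hl i
          rcases i with _ | i
          · exact h2
          · exact h2
        have h2 := stD (s := pS j.isLt.le (s.im p B hB)) (hst j.val j.isLt) (pS_lit (s := s.im p B hB) hlit _) hD h0 h1
          hl' hy
        have h3 : vol (pS j.isLt.le (s.im p B hB)).Q D y = v j.val := hv.im T p B hB j.isLt.le y hy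
        rw [h3] at h2
        exact h2)
      (by
        have h3 := hv.self _ _ hx1
        have h4 : vol (pS (Nat.succ_le_of_lt j.isLt) s).Q D (pre (Nat.succ_le_of_lt j.isLt) x) = v (j.val + 1) := h3
        rw [h4]
        unfold thv
        linarith)
      (fun T p B hB y hy => by
        obtain ⟨z, hz⟩ := (gaq (pS (Nat.succ_le_of_lt j.isLt) (s.im p B hB)).Q D).exists_optfK (KC (S := Sp.im p B) R)
          (cnA (pS (Nat.succ_le_of_lt j.isLt) (s.im p B hB)) (dp (S := Sp.im p B) R) c)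
        have e1 : (fun i => (cnA (pS (Nat.succ_le_of_lt j.isLt) s) (dp R) c i).im p B) =
            cnA (pS (Nat.succ_le_of_lt j.isLt) (s.im p B hB)) (dp (S := Sp.im p B) R) c := by
          funext i
          rcases i with _ | i
          · rfl
          · rfl
        have h2 : (gaq (pS (Nat.succ_le_of_lt j.isLt) (s.im p B hB)).Q D).AdfK (KC (S := Sp.im p B) R)
            (cnA (pS (Nat.succ_le_of_lt j.isLt) (s.im p B hB)) (dp (S := Sp.im p B) R) c) y := by
          rw [← e1]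
          exact hy
        have h3 := vol_optK_le hz h2
        have h4 := hv.im T p B hB (Nat.succ_le_of_lt j.isLt) z hz
        have h5 : vol (pS (Nat.succ_le_of_lt j.isLt) (s.im p B hB)).Q D z = v (j.val + 1) := h4
        rw [h5] at h3
        refine le_trans (le_of_eq ?_) h3
        unfold thv
        ring) e he
  have hm := zx_pre hlit hD hst h0 h1 hv hx j
  obtain ⟨C, hC, hb⟩ := xz_bd (Fin.last j.val) hx1.1.1
  have hb' : ∀ᶠ k in UF, ∀ ω : ((lb x).sp.F k).Ω, ((lb x).sp.F k).μ ω ≠ 0 → |lz s.Q x j k ω| ≤ C + |thv v j.val| := by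
    filter_upwards [hb] with k hk
    intro (ω : (x k).l.T.Ω) hω
    obtain ⟨a, b⟩ := hk ω hω
    have h2 : |lz s.Q x j k ω| ≤ C := by
      rw [abs_of_nonneg (show 0 ≤ lz s.Q x j k ω from a)]
      exact b
    linarith [abs_nonneg (thv v j.val)]
  have h5 := Pool.Agent.Helper4.FFR.typ_abs (lb x).sp (fun _ _ => thv v j.val)
    (fun k (ω : (x k).l.T.Ω) => lz s.Q x j k ω) (C + |thv v j.val|)
    (Eventually.of_forall fun k ω _ => by linarith) hb' (fun e he => Typ.mono (S := (lb x).sp) (hlow e he)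
      (Eventually.of_forall fun k ω _ h => by
        have h6 : thv v j.val - e ≤ lz s.Q x j k ω := h
        show thv v j.val ≤ lz s.Q x j k ω + e
        linarith)) (by
      have e1 : (fun k => ∑ ω, ((lb x).sp.F k).μ ω * thv v j.val) = fun _ => thv v j.val := by
        funext k
        rw [← Finset.sum_mul]
        have e2 : ∑ ω, ((lb x).sp.F k).μ ω = 1 := ((lb x).sp.F k).ms
        rw [e2, one_mul]
      rw [e1, ul_const]
      exact hm.le) e he
  refine Typ.mono (S := (lb x).sp) h5 (Eventually.of_forall fun k ω _ h => ?_)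
  rw [abs_sub_comm]
  exact h

end

end

end Pool.Agent.Helper4.FRK
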